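import Pool.Agent.ASE.Stmts3
import Pool.Agent.Helper69_ASO.CJT
import Pool.Agent.Helper63_ASO.W12A
import Pool.Agent.Helper30_ASD.SMX3

/-!
# ASE row ACB: conjugation with `tt`
-/

open scoped BigOperators

set_option autoImplicit false
set_option linter.unusedSectionVars false

noncomputable section

namespace Pool.Agent.PP.SE.H94

open Pool.Agent.Helper51_AWC Pool.Agent.Helper79_WRA Pool.Agent.PP Pool.Agent.PP.KF
open Pool.Agent.PP.K9 Pool.Agent.PP.K9.H97 Pool.Agent.PP.H75 Pool.Agent.PP.T3 Pool.Agent.PP.SO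
open Pool.Agent.PP.SD

attribute [local instance] Ideal.Quotient.field

section tools

variable {V₀ G : Type} [CommGroup V₀] [Group G] [Finite G] {ℓ : ℕ}
  {M : Ideal (integralClosure ℤ ℂ)} [M.IsMaximal] {E₀ : Subgroup (MulAut V₀)}
  {B : Bk (FF M) V₀ G}

/-- conjugation of functions -/
def cc (t : G) (a : G → ℂ) : G → ℂ := fun x => a (t⁻¹ * x * t)

theorem cc_mul (t t' : G) (a : G → ℂ) : cc t' (cc t a) = cc (t' * t) a := by
  funext x
  show a (t⁻¹ * (t'⁻¹ * x * t') * t) = a ((t' * t)⁻¹ * x * (t' * t))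
  congr 1
  group

theorem cc_one (a : G → ℂ) : cc 1 a = a := by
  funext x
  show a (1⁻¹ * x * 1) = a x
  congr 1
  group

theorem act_inv {i : V₀ →* G} {σ : MulAut V₀} {t : G} (h : ∀ v, t * i v * t⁻¹ = i (σ v)) :
    ∀ v, t⁻¹ * i v * t⁻¹⁻¹ = i (σ⁻¹ v) := by
  intro v
  have h1 := h (σ⁻¹ v)
  rw [show σ (σ⁻¹ v) = v from MulEquiv.apply_symm_apply _ _] at h1
  rw [← h1]
  group

theorem act_mul {i : V₀ →* G} {σ σ' : MulAut V₀} {t t' : G} (h : ∀ v, t * i v * t⁻¹ = i (σ v))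
    (h' : ∀ v, t' * i v * t'⁻¹ = i (σ' v)) : ∀ v, (t' * t) * i v * (t' * t)⁻¹ = i ((σ' * σ) v) := by
  intro v
  rw [MulAut.mul_apply, ← h', ← h]
  group

theorem cv_cc (t : G) (a χ : G → ℂ) : SO.cv (cc t a) (cc t χ) = SO.cv a χ := by
  unfold SO.cv
  congr 1
  · rw [← finsum_comp_equiv (MulAut.conj t).toEquiv]
    apply finsum_congr
    intro g
    show a (t⁻¹ * (t * g * t⁻¹) * t) * χ (t⁻¹ * (t * g * t⁻¹) * t) = a g * χ g
    have : t⁻¹ * (t * g * t⁻¹) * t = g := by group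
    rw [this]
  · show χ (t⁻¹ * 1 * t) = χ 1
    congr 1
    group

/-- the conjugates of the characters -/
theorem ch_cc {σ : MulAut V₀} {t : G} (hact : ∀ v, t * B.i v * t⁻¹ = B.i (σ v))
    {W : Subgroup V₀} (hb : IsCl (fun s : B.C W => B.b W s))
    (hcj : cj t (B.b W) = B.b (mp σ W)) {χ : G → ℂ} (hχ : χ ∈ Ch B W) :
    cc t χ ∈ Ch B (mp σ W) := by
  have hmem : ∀ x : G, x ∈ B.C (mp σ W) ↔ t⁻¹ * x * t ∈ B.C W := SO.H69.mem_C_act B hact W
  refine ⟨fun g hg => hχ.1 _ (fun h => hg ((hmem g).2 h)), ?_, ?_⟩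
  · have h1 := irr_comp_equiv (SO.H69.ph B hact W).symm hχ.2.1
    have h2 : (fun g : B.C (W.map σ.toMonoidHom) =>
        (fun t : B.C W => χ t) ((SO.H69.ph B hact W).symm g)) =
        fun y : B.C (W.map σ.toMonoidHom) => cc t χ y := by
      funext y
      show χ (((SO.H69.ph B hact W).symm y : B.C W) : G) = _
      rw [SO.H69.ph_symm_coe]
      rfl
    rw [h2] at h1
    exact h1
  · have h1 := SO.H63.res_iso (M := M) (SO.H69.ph B hact W).symm hb hχ.2.1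
    have h2 : (fun g : B.C (W.map σ.toMonoidHom) =>
        (fun t : B.C W => χ t) ((SO.H69.ph B hact W).symm g)) =
        fun y : B.C (W.map σ.toMonoidHom) => cc t χ y := by
      funext y
      show χ (((SO.H69.ph B hact W).symm y : B.C W) : G) = _
      rw [SO.H69.ph_symm_coe]
      rfl
    have h3 : (fun g : B.C (W.map σ.toMonoidHom) =>
        (fun t : B.C W => B.b W t) ((SO.H69.ph B hact W).symm g)) =
        fun y : B.C (W.map σ.toMonoidHom) => B.b (mp σ W) y := by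
      funext y
      show B.b W (((SO.H69.ph B hact W).symm y : B.C W) : G) = _
      rw [SO.H69.ph_symm_coe, ← hcj]
      rfl
    rw [h2, h3] at h1
    exact h1.trans hχ.2.2

end tools

theorem acb (cjd : CjdStmt) : AcbStmt := by
  intro ℓ _ M _ hM hℓ2 V₀ G _ _ _ _ E₀ hFq B hB
  have htt : ∀ σ ∈ E₀, tt B σ ∈ Tg B.i.range B.g ∧ ∀ v, tt B σ * B.i v * (tt B σ)⁻¹ = B.i (σ v) := by
    intro σ hσ
    obtain ⟨t, ht, h⟩ := hB.sur σ hσ
    have hex : ∃ t ∈ Tg B.i.range B.g, ∀ v, t * B.i v * t⁻¹ = B.i (σ v) := ⟨t, ht, h⟩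
    have h1 : tt B σ = hex.choose := by
      unfold tt
      rw [dif_pos hex]
    rw [h1]
    exact hex.choose_spec
  refine ⟨htt, ?_⟩
  intro W σ hσ
  have hcl : ∀ W : Subgroup V₀, IsCl (fun s : B.C W => B.b W s) :=
    fun W => (hB.lb W).blk.blk.1.1
  have hC : ∀ (W : Subgroup V₀) (σ : MulAut V₀) (t : G), (∀ v, t * B.i v * t⁻¹ = B.i (σ v)) →
      ∀ x : G, x ∈ B.C (mp σ W) ↔ t⁻¹ * x * t ∈ B.C W :=
    fun W σ t h => SO.H69.mem_C_act B h W
  -- independence of the element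
  have hA : ∀ (W : Subgroup V₀), ∀ σ ∈ E₀, ∀ t : G, (∀ v, t * B.i v * t⁻¹ = B.i (σ v)) →
      ∀ a : G → ℂ, (∀ z ∈ B.C W, ∀ g, a (z * g * z⁻¹) = a g) → ac B σ a = cc t a := by
    intro W σ hσ t hact a ha
    obtain ⟨-, h0⟩ := htt σ hσ
    funext x
    show a ((tt B σ)⁻¹ * x * tt B σ) = a (t⁻¹ * x * t)
    have hz : (tt B σ)⁻¹ * t ∈ B.C W := by
      rw [SO.H63.mem_C]
      intro p _
      have h1 := (h0 p).trans (hact p).symm
      calc (tt B σ)⁻¹ * t * B.i p = (tt B σ)⁻¹ * (t * B.i p * t⁻¹) * t := by group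
        _ = (tt B σ)⁻¹ * (tt B σ * B.i p * (tt B σ)⁻¹) * t := by rw [h1]
        _ = B.i p * ((tt B σ)⁻¹ * t) := by group
    have h2 := ha _ hz (t⁻¹ * x * t)
    rw [← h2]
    congr 1
    group
  have hch : ∀ (W : Subgroup V₀) (χ : G → ℂ), χ ∈ Ch B W →
      ∀ z ∈ B.C W, ∀ g, χ (z * g * z⁻¹) = χ g :=
    fun W χ hχ z hz g => SD.H30.ch_conj hχ hz g
  obtain ⟨hT, hact⟩ := htt σ hσ
  have hcjt := fun W => cjd ℓ M hM hℓ2 V₀ G E₀ hFq B hB σ hσ (tt B σ) hT hact W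
  have hch1 : ∀ χ ∈ Ch B W, cc (tt B σ) χ ∈ Ch B (mp σ W) :=
    fun χ hχ => ch_cc hact (hcl W) (hcjt W).1 hχ
  have hmm : mp σ⁻¹ (mp σ W) = W := by
    ext v
    constructor
    · rintro ⟨_, ⟨w, hw, rfl⟩, rfl⟩
      have : σ⁻¹ (σ w) = w := MulEquiv.symm_apply_apply _ _
      show σ⁻¹ (σ w) ∈ W
      rw [this]; exact hw
    · intro hv
      exact ⟨σ v, ⟨v, hv, rfl⟩, MulEquiv.symm_apply_apply _ _⟩
  have hch2 : ∀ χ ∈ Ch B (mp σ W), cc (tt B σ)⁻¹ χ ∈ Ch B W := by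
    intro χ hχ
    have hT' := (Tg B.i.range B.g).inv_mem hT
    have h1 := (cjd ℓ M hM hℓ2 V₀ G E₀ hFq B hB σ⁻¹ (E₀.inv_mem hσ) (tt B σ)⁻¹ hT'
      (act_inv hact) (mp σ W)).1
    have h2 := ch_cc (act_inv hact) (hcl (mp σ W)) h1 hχ
    rw [hmm] at h2
    exact h2
  have h11 : ∀ a : G → ℂ, (∀ z ∈ B.C W, ∀ g, a (z * g * z⁻¹) = a g) → ac B 1 a = a := by
    intro a ha
    rw [hA W 1 E₀.one_mem 1 (by intro v; simp) a ha, cc_one]
  have hcomp : ∀ a : G → ℂ, (∀ z ∈ B.C W, ∀ g, a (z * g * z⁻¹) = a g) →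
      ∀ σ' ∈ E₀, ac B (σ' * σ) a = ac B σ' (ac B σ a) := by
    intro a ha σ' hσ'
    rw [hA W (σ' * σ) (E₀.mul_mem hσ' hσ) (tt B σ' * tt B σ) (act_mul hact (htt σ' hσ').2) a ha]
    exact (cc_mul _ _ _).symm
  refine ⟨?_, ?_, ?_, ?_, ?_, ?_, ?_, ?_⟩
  · intro t _ hact' a _ ha x
    exact congrFun (hA W σ hσ t hact' a ha) x
  · intro a ha
    refine ⟨⟨?_, ?_, ?_⟩, h11 a ha.cls, hcomp a ha.cls⟩
    · intro g hg
      exact ha.sup _ (fun h => hg ((hC W σ _ hact g).2 h))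
    · intro z hz g
      have h1 := (hC W σ _ hact z).1 hz
      have h2 := ha.cls _ h1 ((tt B σ)⁻¹ * g * tt B σ)
      show a ((tt B σ)⁻¹ * (z * g * z⁻¹) * tt B σ) = a ((tt B σ)⁻¹ * g * tt B σ)
      rw [← h2]
      congr 1
      group
    · intro ψ hψ1 hψ2 hψ3
      have e1 : cc (tt B σ) (cc (tt B σ)⁻¹ ψ) = ψ := by
        rw [cc_mul, mul_inv_cancel, cc_one]
      show SO.cv (cc (tt B σ) a) ψ = 0
      rw [← e1, cv_cc]
      apply ha.blk
      · intro g hg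
        apply hψ1
        intro h
        apply hg
        have h2 := (hC W σ _ hact _).1 h
        have e2 : (tt B σ)⁻¹ * ((tt B σ)⁻¹⁻¹ * g * (tt B σ)⁻¹) * tt B σ = g := by group
        rwa [e2] at h2
      · have h1 := irr_comp_equiv (SO.H69.ph B hact W) hψ2
        have e2 : (fun g : B.C W => (fun t : B.C (mp σ W) => ψ t) (SO.H69.ph B hact W g)) =
            fun t : B.C W => cc (tt B σ)⁻¹ ψ t := by
          funext y
          show ψ (tt B σ * (y : G) * (tt B σ)⁻¹) = ψ ((tt B σ)⁻¹⁻¹ * (y : G) * (tt B σ)⁻¹)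
          rw [inv_inv]
        rw [e2] at h1
        exact h1
      · intro h
        apply hψ3
        rw [← e1]
        exact hch1 _ h
  · intro χ hχ
    refine ⟨hch1 χ hχ, h11 χ (hch W χ hχ), hcomp χ (hch W χ hχ), ?_, ?_⟩
    · intro w
      unfold nu
      show χ ((tt B σ)⁻¹ * B.i (σ w) * tt B σ) / χ ((tt B σ)⁻¹ * 1 * tt B σ) = _
      rw [← hact w]
      congr 2 <;> group
    · intro a _
      exact cv_cc _ _ _
  · refine ⟨fun χ hχ => hch1 χ hχ, ?_, ?_⟩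
    · intro χ _ χ' _ h
      have h1 : cc (tt B σ) χ = cc (tt B σ) χ' := h
      have h2 := congrArg (cc (tt B σ)⁻¹) h1
      rwa [cc_mul, cc_mul, inv_mul_cancel, cc_one, cc_one] at h2
    · intro χ hχ
      refine ⟨cc (tt B σ)⁻¹ χ, hch2 χ hχ, ?_⟩
      show cc (tt B σ) (cc (tt B σ)⁻¹ χ) = χ
      rw [cc_mul, mul_inv_cancel, cc_one]
  · intro c
    funext x
    have h1 := (hcjt W).2.2.2.2.1 c ((tt B σ)⁻¹ * x * tt B σ)
    have e1 : tt B σ * ((tt B σ)⁻¹ * x * tt B σ) * (tt B σ)⁻¹ = x := by group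
    rw [e1] at h1
    exact h1.symm
  · funext x
    have h1 := (hcjt W).2.2.2.1 ((tt B σ)⁻¹ * x * tt B σ)
    have e1 : tt B σ * ((tt B σ)⁻¹ * x * tt B σ) * (tt B σ)⁻¹ = x := by group
    rw [e1] at h1
    exact h1.symm
  · exact (hcjt W).2.2.1
  · intro κ a _
    funext x
    show a ((B.i κ)⁻¹ * ((tt B σ)⁻¹ * x * tt B σ)) =
      a ((tt B σ)⁻¹ * ((B.i (σ κ))⁻¹ * x) * tt B σ)
    rw [← hact κ]
    congr 1
    group

end Pool.Agent.PP.SE.H94
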