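import Pool.Agent.ASE.Stmts3

/-!
# ASE row CN2: a count for `HY`
-/

namespace Pool.Agent.PP.SE.H94

open Pool.Agent.PP.SE Pool.Agent.PP.SD

theorem cn2 : Cn2Stmt := by
  intro V₀ _ _ E₀ n κ L
  set A := SO.aL κ L with hA
  have hαA : ∀ s ∈ L, κ ^ (s.2.1 : ℕ) * s.2.2.1 ∈ A := fun s hs =>
    Subgroup.subset_closure ⟨s, hs, rfl⟩
  have hfix : ∀ π ∈ St E₀ A, ∀ s ∈ L, π (κ ^ (s.2.1 : ℕ) * s.2.2.1) = κ ^ (s.2.1 : ℕ) * s.2.2.1 :=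
    fun π hπ s hs => hπ.2 _ (hαA s hs)
  have hfix' : ∀ π ∈ St E₀ A, ∀ s ∈ L,
      π⁻¹ (κ ^ (s.2.1 : ℕ) * s.2.2.1) = κ ^ (s.2.1 : ℕ) * s.2.2.1 :=
    fun π hπ s hs => ((St E₀ A).inv_mem hπ).2 _ (hαA s hs)
  have hQ : ∀ (τ : MulAut V₀) (y : V₀), (τ, y) ∈ QL E₀ (LT (TL κ L)) ↔
      τ ∈ E₀ ∧ ∀ s ∈ L, τ ((κ ^ (s.2.1 : ℕ) * s.2.2.1) * y ^ (s.1 : ℕ)) =
        κ ^ (s.2.1 : ℕ) * s.2.2.1 := by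
    intro τ y
    constructor
    · rintro ⟨h1, h2⟩
      refine ⟨h1, fun s hs => ?_⟩
      have := h2 (κ ^ (s.2.1 : ℕ) * s.2.2.1, κ ^ (s.2.1 : ℕ) * s.2.2.1, ((s.1 : ℕ) : ℤ))
        ⟨(κ ^ (s.2.1 : ℕ) * s.2.2.1, (s.1 : ℕ)), ⟨s, hs, rfl⟩, rfl⟩
      simpa using this
    · rintro ⟨h1, h2⟩
      refine ⟨h1, ?_⟩
      rintro _ ⟨_, ⟨s, hs, rfl⟩, rfl⟩
      simpa using h2 s hs
  unfold SO.N12 nS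
  rw [← Nat.card_coe_set_eq, ← Nat.card_coe_set_eq, pow_two, ← Nat.card_prod,
    ← Nat.card_prod]
  refine Nat.card_congr
    { toFun := fun w => ((w.1.2.1, w.1.2.2),
        ⟨(⟨((w.1.2.2 : MulAut V₀) * (w.1.2.1 : MulAut V₀))⁻¹ * (w.1.1.1)⁻¹ *
            (w.1.2.1 : MulAut V₀), ?_⟩, (w.1.2.1 : MulAut V₀)⁻¹ (w.1.1.1 w.1.1.2)), ?_⟩)
      invFun := fun z => ⟨(((z.1.1 : MulAut V₀) * (z.2.1.1 : MulAut V₀)⁻¹ *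
          ((z.1.2 : MulAut V₀) * (z.1.1 : MulAut V₀))⁻¹,
        ((z.1.1 : MulAut V₀) * (z.2.1.1 : MulAut V₀)⁻¹ *
          ((z.1.2 : MulAut V₀) * (z.1.1 : MulAut V₀))⁻¹)⁻¹ ((z.1.1 : MulAut V₀) z.2.1.2)),
        (z.1.1, z.1.2)), ?_⟩
      left_inv := ?_
      right_inv := ?_ }
  · obtain ⟨⟨⟨τ, y⟩, ⟨π, hπ⟩, ⟨π', hπ'⟩⟩, h1, h2⟩ := w
    obtain ⟨h1, -⟩ := (hQ τ y).1 h1
    exact E₀.mul_mem (E₀.mul_mem (E₀.inv_mem (E₀.mul_mem hπ'.1 hπ.1)) (E₀.inv_mem h1)) hπ.1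
  · obtain ⟨⟨⟨τ, y⟩, ⟨π, hπ⟩, ⟨π', hπ'⟩⟩, h1, h2⟩ := w
    obtain ⟨h1, h3⟩ := (hQ τ y).1 h1
    simp only at h2 h3 ⊢
    constructor
    · show ((π' * π)⁻¹ * τ⁻¹ * π) (π⁻¹ (τ y)) = κ * π⁻¹ (τ y)
      have e1 : ((π' * π)⁻¹ * τ⁻¹ * π) (π⁻¹ (τ y)) = π⁻¹ (π'⁻¹ y) := by
        simp [MulAut.mul_apply, mul_inv_rev]
      have e2 : π'⁻¹ y = τ y * π κ := by
        conv_lhs => rw [h2]
        exact MulEquiv.symm_apply_apply _ _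
      have e3 : π⁻¹ (π κ) = κ := MulEquiv.symm_apply_apply _ _
      rw [e1, e2, map_mul, e3, mul_comm]
    · intro s hs
      show ((π' * π)⁻¹ * τ⁻¹ * π) ((κ ^ (s.2.1 : ℕ) * s.2.2.1) *
        ((π⁻¹ (τ y)) ^ (s.1 : ℕ))⁻¹) = κ ^ (s.2.1 : ℕ) * s.2.2.1
      have e0 : π (π⁻¹ (τ y)) = τ y := MulEquiv.apply_symm_apply _ _
      have e1 : π ((κ ^ (s.2.1 : ℕ) * s.2.2.1) * ((π⁻¹ (τ y)) ^ (s.1 : ℕ))⁻¹) =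
          (κ ^ (s.2.1 : ℕ) * s.2.2.1) * ((τ y) ^ (s.1 : ℕ))⁻¹ := by
        rw [map_mul, hfix π hπ s hs, map_inv, map_pow, e0]
      have e2 : τ ((κ ^ (s.2.1 : ℕ) * s.2.2.1)) * (τ y) ^ (s.1 : ℕ) =
          κ ^ (s.2.1 : ℕ) * s.2.2.1 := by
        rw [← map_pow, ← map_mul]; exact h3 s hs
      have e3 : (κ ^ (s.2.1 : ℕ) * s.2.2.1) * ((τ y) ^ (s.1 : ℕ))⁻¹ =
          τ (κ ^ (s.2.1 : ℕ) * s.2.2.1) := mul_inv_eq_of_eq_mul e2.symm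
      have e4 : τ⁻¹ (τ (κ ^ (s.2.1 : ℕ) * s.2.2.1)) = κ ^ (s.2.1 : ℕ) * s.2.2.1 :=
        MulEquiv.symm_apply_apply _ _
      rw [MulAut.mul_apply, MulAut.mul_apply, e1, e3, e4]
      exact hfix' _ ((St E₀ A).mul_mem hπ' hπ) s hs
  · obtain ⟨⟨⟨π, hπ⟩, ⟨π', hπ'⟩⟩, ⟨⟨⟨s, hs⟩, X⟩, h1, h2⟩⟩ := z
    simp only at h1 h2 ⊢
    have hτ : π * s⁻¹ * (π' * π)⁻¹ ∈ E₀ :=
      E₀.mul_mem (E₀.mul_mem hπ.1 (E₀.inv_mem hs)) (E₀.inv_mem (E₀.mul_mem hπ'.1 hπ.1))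
    have hy : (π * s⁻¹ * (π' * π)⁻¹) ((π * s⁻¹ * (π' * π)⁻¹)⁻¹ (π X)) = π X :=
      MulEquiv.apply_symm_apply _ _
    have hy2 : (π * s⁻¹ * (π' * π)⁻¹)⁻¹ (π X) = π' (π (s X)) := by
      have : (π * s⁻¹ * (π' * π)⁻¹)⁻¹ = π' * π * s * π⁻¹ := by group
      rw [this]
      simp only [MulAut.mul_apply]
      congr 2
      congr 1
      exact MulEquiv.symm_apply_apply _ _
    refine ⟨(hQ _ _).2 ⟨hτ, fun t ht => ?_⟩, ?_⟩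
    · rw [map_mul, map_pow, hy]
      have e1 : s (κ ^ (t.2.1 : ℕ) * t.2.2.1) * ((s X) ^ (t.1 : ℕ))⁻¹ =
          κ ^ (t.2.1 : ℕ) * t.2.2.1 := by
        rw [← map_pow, ← map_inv, ← map_mul]; exact h2 t ht
      have e2 : s (κ ^ (t.2.1 : ℕ) * t.2.2.1) = (κ ^ (t.2.1 : ℕ) * t.2.2.1) * (s X) ^ (t.1 : ℕ) :=
        mul_inv_eq_iff_eq_mul.1 e1
      have e3 : s⁻¹ (κ ^ (t.2.1 : ℕ) * t.2.2.1) * X ^ (t.1 : ℕ) = κ ^ (t.2.1 : ℕ) * t.2.2.1 := by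
        have e5 : s⁻¹ (s X) = X := MulEquiv.symm_apply_apply _ _
        have e6 : s⁻¹ (s (κ ^ (t.2.1 : ℕ) * t.2.2.1)) = κ ^ (t.2.1 : ℕ) * t.2.2.1 :=
          MulEquiv.symm_apply_apply _ _
        calc s⁻¹ (κ ^ (t.2.1 : ℕ) * t.2.2.1) * X ^ (t.1 : ℕ)
            = s⁻¹ ((κ ^ (t.2.1 : ℕ) * t.2.2.1) * (s X) ^ (t.1 : ℕ)) := by
              rw [MulEquiv.map_mul s⁻¹ (κ ^ (t.2.1 : ℕ) * t.2.2.1) ((s X) ^ (t.1 : ℕ)),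
                map_pow s⁻¹ (s X), e5]
          _ = s⁻¹ (s (κ ^ (t.2.1 : ℕ) * t.2.2.1)) := by rw [← e2]
          _ = κ ^ (t.2.1 : ℕ) * t.2.2.1 := e6
      have e4 : (π * s⁻¹ * (π' * π)⁻¹) (κ ^ (t.2.1 : ℕ) * t.2.2.1) =
          π (s⁻¹ (κ ^ (t.2.1 : ℕ) * t.2.2.1)) := by
        rw [MulAut.mul_apply, MulAut.mul_apply]
        congr 2
        exact hfix' _ ((St E₀ A).mul_mem hπ' hπ) t ht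
      rw [e4, ← map_pow, ← map_mul, e3]
      exact hfix π hπ t ht
    · rw [hy, hy2, ← map_mul, h1, mul_comm]
  · rintro ⟨⟨⟨τ, y⟩, ⟨π, hπ⟩, ⟨π', hπ'⟩⟩, h1, h2⟩
    apply Subtype.ext
    have e1 : π * ((π' * π)⁻¹ * τ⁻¹ * π)⁻¹ * (π' * π)⁻¹ = τ := by group
    have e2 : π (π⁻¹ (τ y)) = τ y := MulEquiv.apply_symm_apply _ _
    have e3 : τ⁻¹ (τ y) = y := MulEquiv.symm_apply_apply _ _
    simp only [e1, e2, e3]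
  · rintro ⟨⟨⟨π, hπ⟩, ⟨π', hπ'⟩⟩, ⟨⟨⟨s, hs⟩, X⟩, h1, h2⟩⟩
    have e1 : (π' * π)⁻¹ * (π * s⁻¹ * (π' * π)⁻¹)⁻¹ * π = s := by group
    have hy : (π * s⁻¹ * (π' * π)⁻¹) ((π * s⁻¹ * (π' * π)⁻¹)⁻¹ (π X)) = π X :=
      MulEquiv.apply_symm_apply _ _
    have e3 : π⁻¹ (π X) = X := MulEquiv.symm_apply_apply _ _
    simp only [e1, hy, e3]

end Pool.Agent.PP.SE.H94
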