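import Pool.Agent.ASE.Stmts5
import Pool.Agent.Helper59_ASO.SSL
import Pool.Agent.Helper90_ASO.CPG

/-!
# ASE row DAV: the deviation `DAS` modulo `RM`
-/

open scoped BigOperators

set_option autoImplicit false
set_option linter.unusedSectionVars false

noncomputable section

namespace Pool.Agent.PP.SE.H94

open Pool.Agent.Helper51_AWC Pool.Agent.Helper79_WRA Pool.Agent.PP Pool.Agent.PP.KF
open Pool.Agent.PP.K9 Pool.Agent.PP.K9.H97 Pool.Agent.PP.H75 Pool.Agent.PP.T3 Pool.Agent.PP.SO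
open Pool.Agent.PP.SD
open Pool.Agent.PP.SO.H59 (finsum_mem_ite)
open Pool.Agent.PP.SO.H90 (rl_rm)

attribute [local instance] Ideal.Quotient.field

theorem finsum_mem_iteQ {α : Type} [Fintype α] (p : α → Prop) [DecidablePred p] (f : α → ℚ) :
    ∑ᶠ w ∈ {w | p w}, f w = ∑ w, if p w then f w else 0 := by
  rw [finsum_mem_def, finsum_eq_sum_of_fintype]
  refine Finset.sum_congr rfl fun w _ => ?_
  by_cases h : p w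
  · rw [if_pos h]
    exact Set.indicator_of_mem (s := {w | p w}) h f
  · rw [if_neg h]
    exact Set.indicator_of_notMem (s := {w | p w}) h f

section comb

variable {V₀ : Type} [CommGroup V₀] {n : ℕ}

/-- exchange of the conditions -/
theorem das_iff {E₀ : Subgroup (MulAut V₀)} {σ : MulAut V₀} {a : Subgroup V₀} {κ : V₀}
    {L : Set (SO.SS n V₀)} {w : MulAut V₀ × V₀} :
    ((aL κ L = a ∧ ∀ s ∈ L, σ s.2.2.2 = s.2.2.1) ∧ w ∈ QL E₀ (LT (TL κ L))) ↔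
      w.1 ∈ E₀ ∧ (L ⊆ TD σ a κ w.1 w.2 ∧ aL κ L = a) := by
  constructor
  · rintro ⟨⟨h1, h2⟩, h3, h4⟩
    refine ⟨h3, fun s hs => ⟨?_, h2 s hs, ?_⟩, h1⟩
    · rw [← h1]
      exact Subgroup.subset_closure ⟨s, hs, rfl⟩
    · have := h4 (κ ^ (s.2.1 : ℕ) * s.2.2.1, κ ^ (s.2.1 : ℕ) * s.2.2.1, ((s.1 : ℕ) : ℤ))
        ⟨(κ ^ (s.2.1 : ℕ) * s.2.2.1, (s.1 : ℕ)), ⟨s, hs, rfl⟩, rfl⟩
      rwa [zpow_natCast] at this
  · rintro ⟨h1, h2, h3⟩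
    refine ⟨⟨h3, fun s hs => (h2 hs).2.1⟩, h1, ?_⟩
    rintro _ ⟨_, ⟨s, hs, rfl⟩, rfl⟩
    have := (h2 hs).2.2
    rwa [← zpow_natCast w.2] at this

/-- `ζ ↦ τ⁻¹ ζ ζ⁻¹` is injective on a line which is not fixed -/
theorem tz_inj {ℓ : ℕ} [Fact ℓ.Prime] {E₀ : Subgroup (MulAut V₀)} {a : Subgroup V₀}
    (ha : Nat.card a = ℓ) {τ : MulAut V₀} (hτ : τ ∈ E₀) (hτa : τ ∉ St E₀ a) {ζ ζ' : V₀}
    (hζ : ζ ∈ a) (hζ' : ζ' ∈ a) (h : τ⁻¹ ζ * ζ⁻¹ = τ⁻¹ ζ' * ζ'⁻¹) : ζ = ζ' := by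
  by_contra hne
  apply hτa
  have h1 : τ⁻¹ (ζ * ζ'⁻¹) = ζ * ζ'⁻¹ := by
    rw [map_mul, map_inv]
    have e1 : τ⁻¹ ζ = τ⁻¹ ζ' * ζ'⁻¹ * ζ := by rw [← h]; group
    rw [e1]
    have : τ⁻¹ ζ' * ζ'⁻¹ * ζ * (τ⁻¹ ζ')⁻¹ = ζ * ζ'⁻¹ := by
      rw [mul_comm (τ⁻¹ ζ') ζ'⁻¹, mul_assoc ζ'⁻¹, mul_comm (τ⁻¹ ζ') ζ, ← mul_assoc,
        mul_inv_cancel_right, mul_comm]
    exact this
  have h2 : τ (ζ * ζ'⁻¹) = ζ * ζ'⁻¹ := by
    conv_lhs => rw [← h1]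
    exact MulEquiv.apply_symm_apply _ _
  refine ⟨hτ, ?_⟩
  have hp : (Nat.card a).Prime := by rw [ha]; exact Fact.out
  have : Fact (Nat.card a).Prime := ⟨hp⟩
  have hm : ζ * ζ'⁻¹ ∈ a := a.mul_mem hζ (a.inv_mem hζ')
  have hgen : ∀ w : a, w ∈ Subgroup.zpowers (⟨ζ * ζ'⁻¹, hm⟩ : a) := by
    intro w
    have h3 : (⟨ζ * ζ'⁻¹, hm⟩ : a) ≠ 1 := by
      intro h4
      apply hne
      have h5 : ζ * ζ'⁻¹ = 1 := congrArg Subtype.val h4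
      exact mul_inv_eq_one.1 h5
    exact mem_zpowers_of_prime_card (h := rfl) h3
  intro w hw
  obtain ⟨k, hk⟩ := hgen ⟨w, hw⟩
  have h6 : (ζ * ζ'⁻¹) ^ k = w := congrArg Subtype.val hk
  rw [← h6, map_zpow, h2]

end comb

theorem dav (gdv : GdvStmt) (wta : WtaStmt) (prb : PrbStmt) : DavStmt := by
  classical
  intro ℓ _ M _ hM hℓ2 V₀ G _ _ _ _ E₀ hF B hB D hD n m hPE ρ₁ ρ₂ x₁ x₂ hρ₁ hρ₂ hx₁ hx₂ F₁₃ Ψ
    M₁ M₂ K hFE c d a ha σ hσ hκ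
  have := Fintype.ofFinite V₀
  have : Finite (MulAut V₀) := inferInstance
  have := Fintype.ofFinite (MulAut V₀)
  have := Fintype.ofFinite (Set (SO.SS n V₀))
  obtain ⟨κ, hκd⟩ : ∃ κ, κ = c * σ d := ⟨_, rfl⟩
  obtain ⟨F, hFd⟩ : ∃ F : Set (SO.SS n V₀) → ℚ, F = F12 ℓ x₁ x₂ Ψ M₁ M₂ K c d := ⟨_, rfl⟩
  obtain ⟨κa, hκad⟩ : ∃ κa, κa = pr ℓ E₀ a κ := ⟨_, rfl⟩
  have hac : Nat.card a = ℓ := ha.1
  have hκa : κa ∈ a := by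
    rw [hκad]
    exact (prb ℓ V₀ E₀ hF a).2.2.2.2.1 ha κ
  obtain ⟨wt, hwt⟩ : ∃ wt : MulAut V₀ → V₀ → ℂ, wt = fun τ y => wtE ℓ E₀ B D a κa τ y := ⟨_, rfl⟩
  have hwtR : ∀ τ ∈ E₀, ∀ y, wt τ y / ℓ ∈ RM M := by
    intro τ hτ y
    rw [hwt]
    exact hD.e6 a ha κa hκa τ hτ y
  obtain ⟨gd, hgd⟩ : ∃ gd : MulAut V₀ → V₀ → ℚ,
      gd = fun τ y => GD D.U c d σ a F (TD σ a κ τ y) := ⟨_, rfl⟩
  obtain ⟨h, hhd⟩ : ∃ h : ℤ, h = x₁ c⁻¹ * x₂ d⁻¹ - x₁ κ⁻¹ * x₂ (σ⁻¹ κ)⁻¹ := ⟨_, rfl⟩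
  obtain ⟨br, hbr⟩ : ∃ br : V₀ → ℚ, br = fun ζ => BrF ℓ x₁ x₂ c d κ σ ζ := ⟨_, rfl⟩
  have hU : ∀ W : Subgroup V₀, W ≠ ⊥ → ∃ q ∈ SOR.Rl ℓ, D.U W = 1 + ℓ * q := hD.u1
  have hval := fun (τ : MulAut V₀) (hτ : τ ∈ E₀) (y : V₀) =>
    gdv ℓ V₀ E₀ hF n ρ₁ ρ₂ hPE.pw hρ₁ hρ₂ x₁ x₂ hx₁ hx₂ F₁₃ Ψ M₁ M₂ K hFE D.U hU c d σ τ a y hac
      hσ hτ hκ
  rw [← hκd, ← hFd] at hval
  rw [← hκd, ← hFd, ← hκad]
  have v1 : ∀ τ ∈ St E₀ a, ∀ y, ∃ q ∈ SOR.Rl ℓ, gd τ y = -((h : ℚ) / (ℓ : ℚ) ^ 2) + q / ℓ := by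
    intro τ hτ y
    rw [hgd, hhd]
    exact (hval τ hτ.1 y).1 hτ
  have v2 : ∀ τ ∈ E₀, τ ∉ St E₀ a → ∀ ζ ∈ a, ζ ≠ 1 → ∃ q ∈ SOR.Rl ℓ,
      gd τ (τ⁻¹ ζ * ζ⁻¹) = br ζ + q / ℓ := by
    intro τ hτ hτa ζ hζ hζ1
    rw [hgd, hbr]
    exact (hval τ hτ _).2.1 hτa ζ hζ hζ1 rfl
  have v3 : ∀ τ ∈ E₀, τ ∉ St E₀ a → ∀ y, (∀ ζ ∈ a, ζ ≠ 1 → y ≠ τ⁻¹ ζ * ζ⁻¹) → gd τ y = 0 := by
    intro τ hτ hτa y hy
    rw [hgd]
    exact (hval τ hτ y).2.2 hτa hy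
  clear hval
  -- exchange of the sums
  have hDAS : DAS ℓ E₀ B D c d σ a F = ∑ τ : MulAut V₀, if τ ∈ E₀ then
      ∑ y, wt τ y * ((gd τ y : ℚ) : ℂ) else 0 := by
    unfold DAS
    rw [← hκd, ← hκad]
    rw [finsum_mem_ite]
    have e1 : ∀ L : Set (SO.SS n V₀),
        (if aL κ L = a ∧ ∀ s ∈ L, σ s.2.2.2 = s.2.2.1 then
          ((cS D.U c d σ (pL L) * mob F L : ℚ) : ℂ) * ∑ᶠ w ∈ QL E₀ (LT (TL κ L)),
            wtE ℓ E₀ B D a κa w.1 w.2 else 0) =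
        ∑ w : MulAut V₀ × V₀, if w.1 ∈ E₀ then wt w.1 w.2 *
          (if L ⊆ TD σ a κ w.1 w.2 ∧ aL κ L = a then
            ((cS D.U c d σ (pL L) * mob F L : ℚ) : ℂ) else 0) else 0 := by
      intro L
      have e2 : ∑ᶠ w ∈ QL E₀ (LT (TL κ L)), wtE ℓ E₀ B D a κa w.1 w.2 =
          ∑ w : MulAut V₀ × V₀, if w ∈ QL E₀ (LT (TL κ L)) then wt w.1 w.2 else 0 := by
        rw [hwt]
        exact finsum_mem_ite (fun w => w ∈ QL E₀ (LT (TL κ L))) _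
      rw [e2, Finset.mul_sum]
      by_cases hL : aL κ L = a ∧ ∀ s ∈ L, σ s.2.2.2 = s.2.2.1
      · rw [if_pos hL]
        refine Finset.sum_congr rfl fun w _ => ?_
        by_cases hw : w ∈ QL E₀ (LT (TL κ L))
        · obtain ⟨h1, h2⟩ := das_iff.1 ⟨hL, hw⟩
          rw [if_pos hw, if_pos h1, if_pos h2, mul_comm]
        · rw [if_neg hw, mul_zero]
          by_cases h1 : w.1 ∈ E₀
          · rw [if_pos h1, if_neg (fun h2 => hw (das_iff.2 ⟨h1, h2⟩).2), mul_zero]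
          · rw [if_neg h1]
      · rw [if_neg hL]
        symm
        refine Finset.sum_eq_zero fun w _ => ?_
        by_cases h1 : w.1 ∈ E₀
        · rw [if_pos h1, if_neg (fun h2 => hL (das_iff.2 ⟨h1, h2⟩).1), mul_zero]
        · rw [if_neg h1]
    rw [Finset.sum_congr rfl (fun L _ => e1 L), Finset.sum_comm, Fintype.sum_prod_type]
    refine Finset.sum_congr rfl fun τ _ => ?_
    by_cases hτ : τ ∈ E₀
    · rw [if_pos hτ]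
      refine Finset.sum_congr rfl fun y _ => ?_
      show (∑ L : Set (SO.SS n V₀), if τ ∈ E₀ then wt τ y *
          (if L ⊆ TD σ a κ τ y ∧ aL κ L = a then
            ((cS D.U c d σ (pL L) * mob F L : ℚ) : ℂ) else 0) else 0) = _
      rw [Finset.sum_congr rfl (fun L _ => if_pos hτ), ← Finset.mul_sum]
      congr 1
      rw [hgd]
      show _ = ((GD D.U c d σ a F (TD σ a κ τ y) : ℚ) : ℂ)
      unfold GD
      rw [← hκd, finsum_mem_iteQ, Rat.cast_sum]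
      refine Finset.sum_congr rfl fun L _ => ?_
      by_cases h2 : L ⊆ TD σ a κ τ y ∧ aL κ L = a
      · rw [if_pos h2, if_pos h2]
      · rw [if_neg h2, if_neg h2, Rat.cast_zero]
    · rw [if_neg hτ]
      refine Finset.sum_eq_zero fun y _ => Finset.sum_eq_zero fun L _ => ?_
      exact if_neg hτ
  -- the main term
  have hLW : ∑ᶠ ζ ∈ {ζ : V₀ | ζ ∈ a ∧ ζ ≠ 1}, LW ℓ E₀ B D a κa ζ *
      ((BrF ℓ x₁ x₂ c d κ σ ζ : ℚ) : ℂ) = ∑ τ : MulAut V₀, if τ ∈ E₀ ∧ τ ∉ St E₀ a then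
        ∑ ζ : V₀, (if ζ ∈ a ∧ ζ ≠ 1 then wt τ (τ⁻¹ ζ * ζ⁻¹) * ((br ζ : ℚ) : ℂ) else 0) else 0 := by
    rw [finsum_mem_ite]
    have e1 : ∀ ζ : V₀, (if ζ ∈ a ∧ ζ ≠ 1 then LW ℓ E₀ B D a κa ζ *
        ((BrF ℓ x₁ x₂ c d κ σ ζ : ℚ) : ℂ) else 0) = ∑ τ : MulAut V₀,
          if τ ∈ E₀ ∧ τ ∉ St E₀ a then (if ζ ∈ a ∧ ζ ≠ 1 then
            wt τ (τ⁻¹ ζ * ζ⁻¹) * ((br ζ : ℚ) : ℂ) else 0) else 0 := by
      intro ζ
      by_cases hζ : ζ ∈ a ∧ ζ ≠ 1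
      · rw [if_pos hζ]
        unfold LW
        rw [finsum_mem_ite, Finset.sum_mul]
        refine Finset.sum_congr rfl fun τ _ => ?_
        by_cases hτ : τ ∈ E₀ ∧ τ ∉ St E₀ a
        · rw [if_pos hτ, if_pos hτ, if_pos hζ, hwt, hbr]
        · rw [if_neg hτ, if_neg hτ, zero_mul]
      · rw [if_neg hζ]
        symm
        refine Finset.sum_eq_zero fun τ _ => ?_
        rw [if_neg hζ, ite_self]
    rw [Finset.sum_congr rfl (fun ζ _ => e1 ζ), Finset.sum_comm]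
    refine Finset.sum_congr rfl fun τ _ => ?_
    by_cases hτ : τ ∈ E₀ ∧ τ ∉ St E₀ a
    · rw [if_pos hτ]
      exact Finset.sum_congr rfl fun ζ _ => if_pos hτ
    · rw [if_neg hτ]
      exact Finset.sum_eq_zero fun ζ _ => if_neg hτ
  have hdiv : ∀ (z : ℂ) (q : ℚ), z / ℓ ∈ RM M → q ∈ SOR.Rl ℓ →
      z * (((q / ℓ : ℚ)) : ℂ) ∈ RM M := by
    intro z q hz hq
    have e : z * (((q / ℓ : ℚ)) : ℂ) = (z / ℓ) * ((q : ℚ) : ℂ) := by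
      push_cast
      ring
    rw [e]
    exact mul_mem hz (rl_rm hM hq)
  -- the part of the stabiliser
  have hSt : (∑ τ : MulAut V₀, if τ ∈ St E₀ a then ∑ y, wt τ y * ((gd τ y : ℚ) : ℂ) else 0) ∈
      RM M := by
    obtain ⟨w1, w2, -⟩ := wta ℓ M hM hℓ2 V₀ G E₀ hF B hB D hD a ha κa hκa
    have e1 : ∑ᶠ w ∈ {w : MulAut V₀ × V₀ | w.1 ∈ St E₀ a}, wtE ℓ E₀ B D a κa w.1 w.2 =
        ∑ τ : MulAut V₀, if τ ∈ St E₀ a then ∑ y, wt τ y else 0 := by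
      rw [finsum_mem_ite, Fintype.sum_prod_type]
      refine Finset.sum_congr rfl fun τ _ => ?_
      by_cases hτ : τ ∈ St E₀ a
      · rw [if_pos hτ, hwt]
        exact Finset.sum_congr rfl fun y _ => if_pos hτ
      · rw [if_neg hτ]
        exact Finset.sum_eq_zero fun y _ => if_neg hτ
    have e2 : (∑ τ : MulAut V₀, if τ ∈ St E₀ a then ∑ y, wt τ y * ((gd τ y : ℚ) : ℂ) else 0) =
        (∑ τ : MulAut V₀, if τ ∈ St E₀ a then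
          ∑ y, wt τ y * (((gd τ y + (h : ℚ) / (ℓ : ℚ) ^ 2 : ℚ)) : ℂ) else 0) -
        (h : ℂ) * (SE1 B D a κa / (ℓ : ℂ) ^ 2) := by
      rw [← w1, e1, Finset.sum_div, Finset.mul_sum, ← Finset.sum_sub_distrib]
      refine Finset.sum_congr rfl fun τ _ => ?_
      by_cases hτ : τ ∈ St E₀ a
      · rw [if_pos hτ, if_pos hτ, if_pos hτ, Finset.sum_div, Finset.mul_sum,
          ← Finset.sum_sub_distrib]
        refine Finset.sum_congr rfl fun y _ => ?_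
        push_cast
        ring
      · rw [if_neg hτ, if_neg hτ, if_neg hτ]
        ring
    rw [e2]
    refine sub_mem (sum_mem fun τ _ => ?_) (mul_mem (intCast_mem _ _) w2)
    by_cases hτ : τ ∈ St E₀ a
    · rw [if_pos hτ]
      refine sum_mem fun y _ => ?_
      obtain ⟨q, hq, hqe⟩ := v1 τ hτ y
      have e3 : gd τ y + (h : ℚ) / (ℓ : ℚ) ^ 2 = q / ℓ := by
        rw [hqe]; ring
      rw [e3]
      exact hdiv _ q (hwtR τ hτ.1 y) hq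
    · rw [if_neg hτ]
      exact zero_mem _
  -- the other part
  have hOt : ∀ τ : MulAut V₀, τ ∈ E₀ → τ ∉ St E₀ a → ∑ y, wt τ y * ((gd τ y : ℚ) : ℂ) -
      ∑ ζ : V₀, (if ζ ∈ a ∧ ζ ≠ 1 then wt τ (τ⁻¹ ζ * ζ⁻¹) * ((br ζ : ℚ) : ℂ) else 0) ∈
        RM M := by
    intro τ hτ hτa
    have e1 : ∑ y, wt τ y * ((gd τ y : ℚ) : ℂ) = ∑ ζ ∈ Finset.univ.filter
        (fun ζ : V₀ => ζ ∈ a ∧ ζ ≠ 1), wt τ (τ⁻¹ ζ * ζ⁻¹) *
          ((gd τ (τ⁻¹ ζ * ζ⁻¹) : ℚ) : ℂ) := by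
      rw [← Finset.sum_image (s := Finset.univ.filter (fun ζ : V₀ => ζ ∈ a ∧ ζ ≠ 1))
        (g := fun ζ => τ⁻¹ ζ * ζ⁻¹) (f := fun y => wt τ y * ((gd τ y : ℚ) : ℂ))]
      · symm
        refine Finset.sum_subset (Finset.subset_univ _) fun y _ hy => ?_
        have h0 : gd τ y = 0 := by
          apply v3 τ hτ hτa
          intro ζ hζ hζ1 hyz
          apply hy
          rw [Finset.mem_image]
          exact ⟨ζ, Finset.mem_filter.2 ⟨Finset.mem_univ _, hζ, hζ1⟩, hyz.symm⟩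
        rw [h0, Rat.cast_zero, mul_zero]
      · intro ζ hζ ζ' hζ' he
        have h1 := (Finset.mem_filter.1 hζ).2
        have h2 := (Finset.mem_filter.1 hζ').2
        exact tz_inj hac hτ hτa h1.1 h2.1 he
    rw [e1, ← Finset.sum_filter, ← Finset.sum_sub_distrib]
    refine sum_mem fun ζ hζ => ?_
    have h1 := (Finset.mem_filter.1 hζ).2
    obtain ⟨q, hq, hqe⟩ := v2 τ hτ hτa ζ h1.1 h1.2
    have e2 : wt τ (τ⁻¹ ζ * ζ⁻¹) * ((gd τ (τ⁻¹ ζ * ζ⁻¹) : ℚ) : ℂ) -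
        wt τ (τ⁻¹ ζ * ζ⁻¹) * ((br ζ : ℚ) : ℂ) =
        wt τ (τ⁻¹ ζ * ζ⁻¹) * (((q / ℓ : ℚ)) : ℂ) := by
      rw [hqe]
      push_cast
      ring
    rw [e2]
    exact hdiv _ q (hwtR τ hτ _) hq
  rw [hDAS, hLW, ← Finset.sum_sub_distrib]
  have e3 : ∀ τ : MulAut V₀, (if τ ∈ E₀ then ∑ y, wt τ y * ((gd τ y : ℚ) : ℂ) else 0) -
      (if τ ∈ E₀ ∧ τ ∉ St E₀ a then ∑ ζ : V₀, (if ζ ∈ a ∧ ζ ≠ 1 then
        wt τ (τ⁻¹ ζ * ζ⁻¹) * ((br ζ : ℚ) : ℂ) else 0) else 0) =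
      (if τ ∈ St E₀ a then ∑ y, wt τ y * ((gd τ y : ℚ) : ℂ) else 0) +
      (if τ ∈ E₀ ∧ τ ∉ St E₀ a then (∑ y, wt τ y * ((gd τ y : ℚ) : ℂ) -
        ∑ ζ : V₀, (if ζ ∈ a ∧ ζ ≠ 1 then
          wt τ (τ⁻¹ ζ * ζ⁻¹) * ((br ζ : ℚ) : ℂ) else 0)) else 0) := by
    intro τ
    by_cases hτ : τ ∈ St E₀ a
    · rw [if_pos hτ.1, if_pos hτ, if_neg (fun h => h.2 hτ), if_neg (fun h => h.2 hτ)]
      ring
    · by_cases hτ' : τ ∈ E₀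
      · rw [if_pos hτ', if_neg hτ, if_pos ⟨hτ', hτ⟩, if_pos ⟨hτ', hτ⟩]
        ring
      · rw [if_neg hτ', if_neg hτ, if_neg (fun h => hτ' h.1), if_neg (fun h => hτ' h.1)]
        ring
  rw [Finset.sum_congr rfl (fun τ _ => e3 τ), Finset.sum_add_distrib]
  refine add_mem hSt (sum_mem fun τ _ => ?_)
  by_cases hτ : τ ∈ E₀ ∧ τ ∉ St E₀ a
  · rw [if_pos hτ]
    exact hOt τ hτ.1 hτ.2
  · rw [if_neg hτ]
    exact zero_mem _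

end Pool.Agent.PP.SE.H94
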