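import Pool.Agent.ASE.Stmts5
import Pool.Agent.Helper25_ASO.M12
import Pool.Agent.Helper63_ASO.W12A

/-!
# ASE row FWB: the part with `aL = ⊥`
-/

open scoped BigOperators

set_option autoImplicit false
set_option linter.unusedSectionVars false

noncomputable section

namespace Pool.Agent.PP.SE.H94

open Pool.Agent.Helper51_AWC Pool.Agent.Helper79_WRA Pool.Agent.PP Pool.Agent.PP.KF
open Pool.Agent.PP.K9 Pool.Agent.PP.K9.H97 Pool.Agent.PP.H75 Pool.Agent.PP.T3 Pool.Agent.PP.SO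
open Pool.Agent.PP.SD

attribute [local instance] Ideal.Quotient.field

theorem pL_bot {V₀ : Type} [CommGroup V₀] {n : ℕ} {L : Set (SO.SS n V₀)} :
    pL L = ⊥ ↔ ∀ s ∈ L, s.2.2.1 = 1 := by
  unfold pL
  rw [Subgroup.closure_eq_bot_iff]
  constructor
  · intro h s hs
    exact h ⟨s, hs, rfl⟩
  · rintro h _ ⟨s, hs, rfl⟩
    exact h s hs

/-- the sums without local part -/
theorem fwb_cnt (mbi : MbiStmt) {V₀ G : Type} [CommGroup V₀] [Finite V₀] [Group G] [Finite G]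
    {ℓ : ℕ} {M : Ideal (integralClosure ℤ ℂ)} [M.IsMaximal] (B : Bk (FF M) V₀ G) {n m : ℕ}
    (a : Subgroup V₀) (z : G → ℂ) (κ : V₀) (hz : ∀ g, z g ≠ 0 → g ^ m = B.i κ)
    (F : Set (SO.SS n V₀) → ℚ) (T₀ : Set (SO.SS n V₀)) (v : ℚ)
    (hT : ∀ s ∈ T₀, κ ^ (s.2.1 : ℕ) * s.2.2.1 = 1)
    (hF : ∀ x : G, F {s | s ∈ T₀ ∧ (x ^ m) ^ (s.1 : ℕ) = 1} = v) :
    ∑ᶠ L ∈ {L : Set (SO.SS n V₀) | L ⊆ T₀}, ((mob F L : ℚ) : ℂ) * HX B m a z L =
      (v : ℂ) * ((Nat.card (B.C a) : ℂ)⁻¹ *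
        ∑ᶠ g, z g * {w : G × G | SO.kap w.1 w.2 = g}.ncard) := by
  classical
  have := Fintype.ofFinite G
  obtain ⟨N, hN⟩ : ∃ N : G → Set (SO.SS n V₀) → ℂ, N = fun g L =>
      (({w : G × G | w ∈ {w : G × G | SO.kap w.1 w.2 = g} ∧
        L ⊆ {s | s ∈ T₀ ∧ (w.1 ^ m) ^ (s.1 : ℕ) = 1}} : Set (G × G)).ncard : ℂ) := ⟨_, rfl⟩
  have hHX : ∀ L : Set (SO.SS n V₀), L ⊆ T₀ → HX B m a z L =
      (Nat.card (B.C a) : ℂ)⁻¹ * ∑ g : G, z g * N g L := by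
    intro L hL
    unfold HX
    rw [finsum_eq_sum_of_fintype]
    congr 1
    refine Finset.sum_congr rfl fun g _ => ?_
    by_cases hg : z g = 0
    · rw [hg, zero_mul, zero_mul]
    have hgm := hz g hg
    rw [hN]
    congr 3
    ext w
    simp only [Set.mem_setOf_eq]
    refine and_congr_right fun _ => ?_
    have hone : ∀ s ∈ L, (g ^ m) ^ (s.2.1 : ℕ) * B.i s.2.2.1 = 1 := by
      intro s hs
      rw [hgm, ← map_pow, ← map_mul, hT s (hL hs), map_one]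
    constructor
    · intro h s hs
      refine ⟨hL hs, ?_⟩
      have h2 := (h s hs).2
      rw [hone s hs, mul_one, inv_mul_cancel, one_mul] at h2
      exact h2.symm
    · intro h s hs
      have h2 : (w.1 ^ m) ^ (s.1 : ℕ) = 1 := (h hs).2
      rw [hone s hs, h2]
      simp
  have hsum : ∀ g : G, ∑ᶠ L ∈ {L : Set (SO.SS n V₀) | L ⊆ T₀}, (mob F L : ℂ) * N g L =
      v * (({w : G × G | SO.kap w.1 w.2 = g} : Set (G × G)).ncard : ℂ) := by
    intro g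
    rw [hN]
    apply SO.H25.cnt mbi F T₀ {w : G × G | SO.kap w.1 w.2 = g}
      (fun w => {s | s ∈ T₀ ∧ (w.1 ^ m) ^ (s.1 : ℕ) = 1}) v
    · intro w _ s hs
      exact hs.1
    · intro w _
      exact hF w.1
  have hfin : ({L : Set (SO.SS n V₀) | L ⊆ T₀} : Set (Set (SO.SS n V₀))).Finite := Set.toFinite _
  have e1 : ∑ᶠ L ∈ {L : Set (SO.SS n V₀) | L ⊆ T₀}, (mob F L : ℂ) * HX B m a z L =
      (Nat.card (B.C a) : ℂ)⁻¹ * ∑ g : G, z g *
        ∑ᶠ L ∈ {L : Set (SO.SS n V₀) | L ⊆ T₀}, (mob F L : ℂ) * N g L := by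
    simp only [finsum_mem_eq_finite_toFinset_sum _ hfin]
    simp only [Finset.mul_sum]
    rw [Finset.sum_comm]
    have h3 : ∀ L ∈ hfin.toFinset, (mob F L : ℂ) * HX B m a z L = ∑ g : G,
        (Nat.card (B.C a) : ℂ)⁻¹ * (z g * ((mob F L : ℂ) * N g L)) := by
      intro L hL
      rw [Set.Finite.mem_toFinset] at hL
      rw [hHX L hL, Finset.mul_sum, Finset.mul_sum]
      exact Finset.sum_congr rfl fun t _ => by ring
    exact Finset.sum_congr rfl h3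
  rw [e1, finsum_eq_sum_of_fintype]
  simp only [hsum, Finset.mul_sum]
  exact Finset.sum_congr rfl fun t _ => by ring

theorem fwb (mbi : MbiStmt) (xem : XemStmt) : FwbStmt := by
  classical
  intro ℓ _ M _ hM hℓ2 V₀ G _ _ _ _ E₀ hFq B hB D hD n m hn hPE a ha κ hκ σ hσ F v v' hv hv'
  have hac : Nat.card a = ℓ := ha.1
  have ha1 : a ≠ ⊥ := by
    intro h
    rw [h, Subgroup.card_bot] at hac
    exact (Fact.out : ℓ.Prime).one_lt.ne hac
  constructor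
  · intro hκ1
    have : {L : Set (SO.SS n V₀) | pL L = a ∧ (∀ s ∈ L, σ s.2.2.2 = s.2.2.1) ∧
        ∀ s ∈ L, κ ^ (s.2.1 : ℕ) * s.2.2.1 = 1} = ∅ := by
      ext L
      simp only [Set.mem_setOf_eq, Set.mem_empty_iff_false, iff_false]
      rintro ⟨h1, -, h3⟩
      apply ha1
      rw [← h1, pL_bot]
      intro s hs
      have := h3 s hs
      rwa [hκ1, one_pow, one_mul] at this
    rw [this, finsum_mem_empty]
  intro hκ1
  obtain ⟨T₀, hT₀⟩ : ∃ T₀ : Set (SO.SS n V₀), T₀ =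
      {s | s.2.2.1 = κ⁻¹ ^ (s.2.1 : ℕ) ∧ s.2.2.2 = (σ⁻¹ κ)⁻¹ ^ (s.2.1 : ℕ)} := ⟨_, rfl⟩
  have hsub : ∀ s : SO.SS n V₀, s ∈ T₀ ↔ σ s.2.2.2 = s.2.2.1 ∧ κ ^ (s.2.1 : ℕ) * s.2.2.1 = 1 := by
    intro s
    rw [hT₀]
    show (s.2.2.1 = κ⁻¹ ^ (s.2.1 : ℕ) ∧ s.2.2.2 = (σ⁻¹ κ)⁻¹ ^ (s.2.1 : ℕ)) ↔ _
    have hs : σ (σ⁻¹ κ) = κ := MulEquiv.apply_symm_apply _ _
    constructor
    · rintro ⟨h1, h2⟩
      refine ⟨?_, ?_⟩
      · rw [h2, h1, map_pow, map_inv, hs]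
      · rw [h1, inv_pow, mul_inv_cancel]
    · rintro ⟨h1, h2⟩
      have h3 : s.2.2.1 = κ⁻¹ ^ (s.2.1 : ℕ) := by
        rw [inv_pow]
        exact (inv_eq_of_mul_eq_one_right h2).symm
      refine ⟨h3, ?_⟩
      apply σ.injective
      rw [h1, h3, map_pow, map_inv, hs]
  obtain ⟨T₁, hT₁⟩ : ∃ T₁ : Set (SO.SS n V₀), T₁ = {s | s ∈ T₀ ∧ s.2.2.1 = 1} := ⟨_, rfl⟩
  have hz : ∀ g, tk B κ (D.et a) g ≠ 0 → g ^ m = B.i κ := by
    intro g hg
    have hg' : D.et a ((B.i κ)⁻¹ * g) ≠ 0 := hg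
    have hC : (B.i κ)⁻¹ * g ∈ B.C a := by
      by_contra h
      exact hg' ((hD.e1 a ha1).sup _ h)
    have hR : Reg ℓ ((B.i κ)⁻¹ * g) := by
      by_contra h
      exact hg' (hD.e2 a ha1 _ h)
    have h1 : Commute (B.i κ) ((B.i κ)⁻¹ * g) := by
      have := (SO.H63.mem_C B a _).1 hC κ hκ
      exact this.symm
    have h2 : g = B.i κ * ((B.i κ)⁻¹ * g) := by group
    rw [h2, h1.mul_pow, hPE.rg _ hR, mul_one]
    refine (hPE.el (B.i κ) ⟨1, ?_⟩).1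
    rw [pow_one, ← map_pow, hFq.ex, map_one]
  have hset : {L : Set (SO.SS n V₀) | pL L = a ∧ (∀ s ∈ L, σ s.2.2.2 = s.2.2.1) ∧
      ∀ s ∈ L, κ ^ (s.2.1 : ℕ) * s.2.2.1 = 1} =
      {L : Set (SO.SS n V₀) | L ⊆ T₀} \ {L : Set (SO.SS n V₀) | L ⊆ T₁} := by
    ext L
    simp only [Set.mem_setOf_eq, Set.mem_sdiff]
    constructor
    · rintro ⟨h1, h2, h3⟩
      refine ⟨fun s hs => (hsub s).2 ⟨h2 s hs, h3 s hs⟩, fun h4 => ha1 ?_⟩
      rw [← h1, pL_bot]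
      intro s hs
      have := h4 hs
      rw [hT₁] at this
      exact this.2
    · rintro ⟨h1, h2⟩
      refine ⟨?_, fun s hs => ((hsub s).1 (h1 hs)).1, fun s hs => ((hsub s).1 (h1 hs)).2⟩
      have hle : pL L ≤ a := by
        unfold pL
        rw [Subgroup.closure_le]
        rintro _ ⟨s, hs, rfl⟩
        have h3 := h1 hs
        rw [hT₀] at h3
        rw [h3.1]
        exact a.pow_mem (a.inv_mem hκ) _
      have hne : pL L ≠ ⊥ := by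
        intro h3
        rw [pL_bot] at h3
        apply h2
        intro s hs
        rw [hT₁]
        exact ⟨h1 hs, h3 s hs⟩
      apply Subgroup.eq_of_le_of_card_ge hle
      have hd := Subgroup.card_dvd_of_le hle
      rw [hac] at hd
      rcases (Nat.dvd_prime Fact.out).1 hd with h4 | h4
      · exact absurd (Subgroup.card_eq_one.1 h4) hne
      · rw [hac, h4]
  have hT10 : {L : Set (SO.SS n V₀) | L ⊆ T₁} ⊆ {L : Set (SO.SS n V₀) | L ⊆ T₀} := by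
    intro L hL s hs
    have := hL hs
    rw [hT₁] at this
    exact this.1
  have hd := finsum_mem_union
    (f := fun L : Set (SO.SS n V₀) => ((mob F L : ℚ) : ℂ) * HX B m a (tk B κ (D.et a)) L)
    (s := {L : Set (SO.SS n V₀) | L ⊆ T₀} \ {L : Set (SO.SS n V₀) | L ⊆ T₁})
    (t := {L : Set (SO.SS n V₀) | L ⊆ T₁}) Set.disjoint_sdiff_left (Set.toFinite _)
    (Set.toFinite _)
  rw [Set.sdiff_union_of_subset hT10] at hd
  have s0 := fwb_cnt (ℓ := ℓ) mbi B (n := n) (m := m) a (tk B κ (D.et a)) κ hz F T₀ v'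
    (fun s hs => ((hsub s).1 hs).2) (by
      intro x
      rw [← hv' {i : Fin n | (x ^ m) ^ (i : ℕ) = 1} ⟨⟨0, hn⟩, by simp, rfl⟩]
      congr 1
      ext s
      rw [hT₀]
      simp only [Set.mem_setOf_eq]
      exact ⟨fun h => ⟨h.2, h.1.1, h.1.2⟩, fun h => ⟨⟨h.2.1, h.2.2⟩, h.1⟩⟩)
  have s1 := fwb_cnt (ℓ := ℓ) mbi B (n := n) (m := m) a (tk B κ (D.et a)) κ hz F T₁ v
    (fun s hs => by
      rw [hT₁] at hs
      exact ((hsub s).1 hs.1).2) (by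
      intro x
      have h1 : ∀ s ∈ {s : SO.SS n V₀ | s ∈ T₁ ∧ (x ^ m) ^ (s.1 : ℕ) = 1},
          s.2.2.1 = 1 ∧ s.2.2.2 = 1 := by
        rintro s ⟨hs, -⟩
        rw [hT₁] at hs
        refine ⟨hs.2, ?_⟩
        have h2 := ((hsub s).1 hs.1).1
        rw [hs.2] at h2
        exact σ.injective (h2.trans (map_one σ).symm)
      exact hv _ (fun s hs _ _ => h1 s hs) h1)
  obtain ⟨-, -, x3, -, x5⟩ := xem ℓ M hM hℓ2 V₀ G E₀ hFq B hB.toSb D hD
  have hX := (x3 a ha κ hκ).2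
  have hLL : LL B (etl B D a κ ⊥) = ∑ᶠ χ ∈ Irr G, SO.cv (etl B D a κ ⊥) χ := by
    unfold LL
    apply finsum_mem_inter_support_eq'
    intro χ hχ
    refine ⟨fun h => h.1, fun h => ?_⟩
    by_contra h'
    exact hχ (x5 a ha κ hκ hκ1 χ h h')
  rw [hset, hLL, ← hX]
  rw [s0, s1] at hd
  push_cast
  linear_combination (-1 : ℂ) * hd

end Pool.Agent.PP.SE.H94
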